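import Pool.Agent.H6.LD.Stm

set_option autoImplicit false

namespace Pool.Agent.H11.LD

open Pool.Agent.H6.LD

theorem t_IRR : S_IRR := by
  intro p q hp hq hpq
  rw [eq_bot_iff]
  intro x hx
  rw [AddSubgroup.mem_bot]
  obtain ⟨h1, h2⟩ := AddSubgroup.mem_inf.1 hx
  rw [Mw, AddSubgroup.mem_zmultiples_iff] at h1 h2
  obtain ⟨m, hm⟩ := h1
  obtain ⟨n, hn⟩ := h2
  have lp : 0 < Real.log p := Real.log_pos (by exact_mod_cast hp.one_lt)
  have lq : 0 < Real.log q := Real.log_pos (by exact_mod_cast hq.one_lt)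
  have e : (m : ℝ) * Real.log q = n * Real.log p := by
    have h3 : (m : ℝ) * (2 * Real.pi / Real.log p) = n * (2 * Real.pi / Real.log q) := by
      rw [← zsmul_eq_mul, ← zsmul_eq_mul, hm, hn]
    have h4 : (m : ℝ) * (2 * Real.pi / Real.log p) * (Real.log p * Real.log q / (2 * Real.pi)) =
        n * (2 * Real.pi / Real.log q) * (Real.log p * Real.log q / (2 * Real.pi)) := by rw [h3]
    have hpi := Real.pi_pos
    have e1 : (m : ℝ) * (2 * Real.pi / Real.log p) * (Real.log p * Real.log q / (2 * Real.pi)) =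
        m * Real.log q := by field_simp
    have e2 : (n : ℝ) * (2 * Real.pi / Real.log q) * (Real.log p * Real.log q / (2 * Real.pi)) =
        n * Real.log p := by field_simp
    rw [e1, e2] at h4
    exact h4
  have e2 : |(m : ℝ)| * Real.log q = |(n : ℝ)| * Real.log p := by
    have h3 := congrArg abs e
    rwa [abs_mul, abs_mul, abs_of_pos lq, abs_of_pos lp] at h3
  have e3 : q ^ m.natAbs = p ^ n.natAbs := by
    have h3 : Real.log ((q : ℝ) ^ m.natAbs) = Real.log ((p : ℝ) ^ n.natAbs) := by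
      rw [Real.log_pow, Real.log_pow, Nat.cast_natAbs, Nat.cast_natAbs]
      push_cast
      exact e2
    have hq0 : (0 : ℝ) < q := by exact_mod_cast hq.pos
    have hp0 : (0 : ℝ) < p := by exact_mod_cast hp.pos
    have h4 := Real.log_injOn_pos (Set.mem_Ioi.2 (by positivity)) (Set.mem_Ioi.2 (by positivity)) h3
    exact_mod_cast h4
  have hm0 : m.natAbs = 0 := by
    by_contra h
    have h3 : q ∣ p ^ n.natAbs := e3 ▸ dvd_pow_self q h
    have h4 := hq.dvd_of_dvd_pow h3
    exact hpq ((Nat.prime_dvd_prime_iff_eq hq hp).1 h4).symm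
  have hm1 : m = 0 := Int.natAbs_eq_zero.1 hm0
  rw [← hm, hm1, zero_smul]

end Pool.Agent.H11.LD
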