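import Pool.Agent.H6.LD.Stm

set_option autoImplicit false

namespace Pool.Agent.H11.LD

open Pool.Agent.H6.LD Finset

theorem t_TAIL (hT : S_TLB) : S_TAIL := by
  classical
  intro ε hε
  obtain ⟨y0, h0⟩ := hT ε hε
  refine ⟨y0, fun y hy x hx => ?_⟩
  have h1 := h0 y hy x
  have lx : 0 < Real.log x := Real.log_pos (by exact_mod_cast hx)
  set Ps := (Finset.Ioc y x).filter Nat.Prime with hPs
  let g : ℕ → ℕ → ℕ → ℝ := fun p j k => if p ^ j ≤ k ∧ k < p ^ j + p ^ (j - 1) then (1 : ℝ) / k else 0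
  have hg : ∀ p j k, 0 ≤ g p j k := by
    intro p j k
    simp only [g]
    split_ifs
    · positivity
    · exact le_rfl
  have step1 : LS (fun k => ∃ p, p.Prime ∧ y < p ∧ Bd p k) x ≤
      ∑ k ∈ Finset.Icc 1 x, ∑ p ∈ Ps, ∑ j ∈ Finset.Icc 1 (Nat.log p x), g p j k := by
    unfold LS
    refine le_trans (Finset.sum_le_sum (g := fun k => ∑ p ∈ Ps, ∑ j ∈ Finset.Icc 1 (Nat.log p x), g p j k)
      fun k hk => ?_) (Finset.sum_le_sum_of_subset_of_nonneg (Finset.filter_subset _ _)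
      fun k _ _ => Finset.sum_nonneg fun p _ => Finset.sum_nonneg fun j _ => hg p j k)
    obtain ⟨hk1, p, hp, hyp, j, hj, hj1, hj2⟩ := Finset.mem_filter.1 hk
    have hkx := (Finset.mem_Icc.1 hk1).2
    have hpj : p ≤ p ^ j := Nat.le_self_pow (by omega) p
    have hpP : p ∈ Ps := by
      rw [hPs, Finset.mem_filter, Finset.mem_Ioc]
      exact ⟨⟨hyp, by omega⟩, hp⟩
    have hjl : j ≤ Nat.log p x := Nat.le_log_of_pow_le hp.one_lt (hj1.trans hkx)
    calc (1 : ℝ) / k = g p j k := by simp only [g]; rw [if_pos ⟨hj1, hj2⟩]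
      _ ≤ ∑ j ∈ Finset.Icc 1 (Nat.log p x), g p j k :=
        Finset.single_le_sum (f := fun j => g p j k) (fun j _ => hg p j k)
          (Finset.mem_Icc.2 ⟨hj, hjl⟩)
      _ ≤ _ := Finset.single_le_sum (f := fun p => ∑ j ∈ Finset.Icc 1 (Nat.log p x), g p j k)
        (fun p _ => Finset.sum_nonneg fun j _ => hg p j k) hpP
  have step2 : ∑ k ∈ Finset.Icc 1 x, ∑ p ∈ Ps, ∑ j ∈ Finset.Icc 1 (Nat.log p x), g p j k =
      ∑ p ∈ Ps, ∑ j ∈ Finset.Icc 1 (Nat.log p x), ∑ k ∈ Finset.Icc 1 x, g p j k := by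
    rw [Finset.sum_comm]
    exact Finset.sum_congr rfl fun p _ => Finset.sum_comm
  have step3 : ∀ p ∈ Ps, ∀ j ∈ Finset.Icc 1 (Nat.log p x), ∑ k ∈ Finset.Icc 1 x, g p j k ≤ 1 / p := by
    intro p hp j hj
    have hp' : p.Prime := (Finset.mem_filter.1 hp).2
    have hp0 : (0 : ℝ) < p := by exact_mod_cast hp'.pos
    obtain ⟨i, rfl⟩ : ∃ i, j = i + 1 := ⟨j - 1, by have := (Finset.mem_Icc.1 hj).1; omega⟩
    simp only [g]
    rw [← Finset.sum_filter]
    calc ∑ k ∈ (Finset.Icc 1 x).filter (fun k => p ^ (i + 1) ≤ k ∧ k < p ^ (i + 1) + p ^ (i + 1 - 1)),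
          (1 : ℝ) / k
        ≤ ∑ k ∈ Finset.Ico (p ^ (i + 1)) (p ^ (i + 1) + p ^ i), (1 : ℝ) / k := by
          refine Finset.sum_le_sum_of_subset_of_nonneg ?_ fun k _ _ => by positivity
          intro k hk
          have := (Finset.mem_filter.1 hk).2
          rw [Nat.add_sub_cancel] at this
          exact Finset.mem_Ico.2 this
      _ ≤ ∑ _k ∈ Finset.Ico (p ^ (i + 1)) (p ^ (i + 1) + p ^ i), (1 : ℝ) / (p : ℝ) ^ (i + 1) := by
          refine Finset.sum_le_sum fun k hk => ?_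
          have h3 := (Finset.mem_Ico.1 hk).1
          refine one_div_le_one_div_of_le (by positivity) ?_
          exact_mod_cast h3
      _ = 1 / p := by
          rw [Finset.sum_const, Nat.card_Ico, Nat.add_sub_cancel_left, nsmul_eq_mul]
          push_cast
          rw [pow_succ]
          field_simp
  have step4 : ∀ p ∈ Ps, ∑ _j ∈ Finset.Icc 1 (Nat.log p x), (1 : ℝ) / p ≤
      Real.log x * (1 / ((p : ℝ) * Real.log p)) := by
    intro p hp
    have hp' : p.Prime := (Finset.mem_filter.1 hp).2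
    have hp0 : (0 : ℝ) < p := by exact_mod_cast hp'.pos
    have lp : 0 < Real.log p := Real.log_pos (by exact_mod_cast hp'.one_lt)
    rw [Finset.sum_const, Nat.card_Icc, Nat.add_sub_cancel, nsmul_eq_mul]
    have h3 : p ^ Nat.log p x ≤ x := Nat.pow_log_le_self p (by omega)
    have h4 : (Nat.log p x : ℝ) * Real.log p ≤ Real.log x := by
      rw [← Real.log_pow]
      refine Real.log_le_log (by positivity) ?_
      exact_mod_cast h3
    have h5 : (Nat.log p x : ℝ) ≤ Real.log x / Real.log p := by rwa [le_div_iff₀ lp]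
    calc (Nat.log p x : ℝ) * (1 / p) ≤ Real.log x / Real.log p * (1 / p) := by gcongr
      _ = Real.log x * (1 / ((p : ℝ) * Real.log p)) := by field_simp
  calc LS (fun k => ∃ p, p.Prime ∧ y < p ∧ Bd p k) x
      ≤ ∑ p ∈ Ps, ∑ j ∈ Finset.Icc 1 (Nat.log p x), ∑ k ∈ Finset.Icc 1 x, g p j k := by
        rw [← step2]; exact step1
    _ ≤ ∑ p ∈ Ps, ∑ _j ∈ Finset.Icc 1 (Nat.log p x), (1 : ℝ) / p :=
        Finset.sum_le_sum fun p hp => Finset.sum_le_sum fun j hj => step3 p hp j hj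
    _ ≤ ∑ p ∈ Ps, Real.log x * (1 / ((p : ℝ) * Real.log p)) := Finset.sum_le_sum step4
    _ = Real.log x * ∑ p ∈ Ps, 1 / ((p : ℝ) * Real.log p) := by rw [Finset.mul_sum]
    _ ≤ Real.log x * ε := by gcongr
    _ = ε * Real.log x := mul_comm _ _

end Pool.Agent.H11.LD
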